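import Mathlib
import Pool.Agent.W931.LC.Props

set_option autoImplicit false

/-!
# A product of Levy collapses: power sets inside the intervals; the collapses
-/

namespace Pool.Agent.W933.LC

open Cardinal Pool.Agent.Helper669.Forcing Pool.Agent.Helper669.K Pool.Agent.Helper669.U
  Pool.Agent.Helper669.V Pool.Agent.W931.KH Pool.Agent.W931.LC

/-- The product of the coordinates up to `j`. -/
abbrev Bj (Q : Par) (j : I) : Type := ∀ i : Set.Iic j, Co (Q.mu i) (Q.ka i)

/-- The restriction. -/
def res (Q : Par) (j : I) (p : Q.Cd) : Bj Q j := fun i => p i.1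

/-- The condition with first part `b` and second part from `q`. -/
noncomputable def glue (Q : Par) (j : I) (b : Bj Q j) (q : Q.Cd) : Q.Cd :=
  fun i => if h : i ≤ j then b ⟨i, h⟩ else q i

theorem res_glue (Q : Par) (j : I) (b : Bj Q j) (q : Q.Cd) : res Q j (glue Q j b q) = b := by
  funext i
  show (if h : i.1 ≤ j then b ⟨i.1, h⟩ else q i.1) = b i
  rw [dif_pos (show i.1 ≤ j from i.2)]

theorem res_mono (Q : Par) (j : I) {p q : Q.Cd} (h : p ≤ q) : res Q j p ≤ res Q j q :=
  fun i => h i.1

theorem glue_mono (Q : Par) (j : I) {b b' : Bj Q j} {q q' : Q.Cd} (h : b ≤ b') (h' : q ≤ q') :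
    glue Q j b q ≤ glue Q j b' q' := by
  intro i
  by_cases hi : i ≤ j
  · have e1 : glue Q j b q i = b ⟨i, hi⟩ := dif_pos hi
    have e2 : glue Q j b' q' i = b' ⟨i, hi⟩ := dif_pos hi
    rw [e1, e2]
    exact h _
  · have e1 : glue Q j b q i = q i := dif_neg hi
    have e2 : glue Q j b' q' i = q' i := dif_neg hi
    rw [e1, e2]
    exact h' _

theorem glue_le (Q : Par) (j : I) {b : Bj Q j} {s : Q.Cd} (h : b ≤ res Q j s) :
    glue Q j b s ≤ s := by
  intro i
  by_cases hi : i ≤ j
  · have e1 : glue Q j b s i = b ⟨i, hi⟩ := dif_pos hi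
    rw [e1]
    exact h ⟨i, hi⟩
  · have e1 : glue Q j b s i = s i := dif_neg hi
    rw [e1]

theorem mix_eq (Q : Par) (j : I) (b q : Q.Cd) : Q.mix j b q = glue Q j (res Q j b) q := by
  funext i
  by_cases hi : i ≤ j
  · have e1 : Q.mix j b q i = b i := if_pos hi
    have e2 : glue Q j (res Q j b) q i = b i := dif_pos hi
    rw [e1, e2]
  · have e1 : Q.mix j b q i = q i := if_neg hi
    have e2 : glue Q j (res Q j b) q i = q i := dif_neg hi
    rw [e1, e2]

theorem meets_lift (Q : Par) (j : I) (N : Set (Bj Q j)) (s : Q.Cd) :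
    s ∈ meets {u : Q.Cd | res Q j u ∈ N} ↔ res Q j s ∈ meets N := by
  constructor
  · intro hs b hb
    obtain ⟨r, hr, u, hu, hru⟩ := hs (glue Q j b s) (glue_le Q j hb)
    have h1 := res_mono Q j hr
    rw [res_glue] at h1
    exact ⟨res Q j r, h1, res Q j u, hu, res_mono Q j hru⟩
  · intro hs s2 hs2
    obtain ⟨b, hb, n, hn, hbn⟩ := hs (res Q j s2) (res_mono Q j hs2)
    refine ⟨glue Q j b s2, glue_le Q j hb, glue Q j n s2, ?_, glue_mono Q j hbn le_rfl⟩
    show res Q j (glue Q j n s2) ∈ N
    rw [res_glue]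
    exact hn

theorem tPOW1 (h1 : S_FUS) (h2 : S_CC) (h3 : S_CARD1) : S_POW1 := by
  classical
  intro hG Q j ν _ hν p
  have hcc : ∀ (ι : Type) (f : ι → Bj Q j), Q.ka j ≤ #ι →
      ∃ i i', i ≠ i' ∧ ∃ r, r ≤ f i ∧ r ≤ f i' := by
    intro ι f hι
    by_contra hcon
    push Not at hcon
    have hinj : Function.Injective f := by
      intro i i' hii
      by_contra hne
      exact hcon i i' hne (f i) le_rfl hii.le
    have h4 := h2 Q j (Set.range f) (by
      rintro a ⟨i, rfl⟩ b ⟨i', rfl⟩ ⟨s, hs1, hs2⟩
      by_contra hne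
      exact hcon i i' (fun h => hne (by rw [h])) s hs1 hs2)
    rw [Cardinal.mk_range_eq f hinj] at h4
    exact absurd hι (not_le.2 h4)
  have hcard := card_nice (Q := Bj Q j) (χ := Q.ka j) (ν := ν) (Q.reg j) (Q.strong j)
    (h3 hG Q j) hν
  obtain ⟨F, hF⟩ := exists_nice_enum hcc hcard (Q.reg j).pos.ne'
  refine mem_fex_of_mem (fun i x => {u : Q.Cd | res Q j u ∈ F i x})
    (down_fall fun _ => down_fex _) ?_
  intro X
  refine mem_fex.2 fun p1 _ => ?_
  obtain ⟨q, hq, hD⟩ := h1 Q (fun i => {x : ν.ord.ToType // i = j}) (by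
      intro i
      by_cases hi : i = j
      · subst hi
        refine (Cardinal.mk_subtype_le _).trans ?_
        rw [mk_ord_toType]
        exact hν.le
      · have : IsEmpty {x : ν.ord.ToType // i = j} := ⟨fun x => hi x.2⟩
        rw [Cardinal.mk_eq_zero]
        exact zero_le)
    (fun i x => meets (X x.1) ∪ fnot (meets (X x.1)))
    (by
      intro i x p hp p' hp'
      rcases hp with hp | hp
      · exact Or.inl (down_meets _ _ hp _ hp')
      · exact Or.inr (down_fnot _ _ hp _ hp'))
    (by
      intro i x p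
      by_cases h : ∃ p' ≤ p, p' ∈ meets (X x.1)
      · obtain ⟨p', hp', h'⟩ := h
        exact ⟨p', hp', Or.inl h'⟩
      · exact ⟨p, le_rfl, Or.inr fun p' hp' h' => h ⟨p', hp', h'⟩⟩) p1
  have hD' : ∀ (x : ν.ord.ToType) (b : Q.Cd), ∃ b' ≤ b, Q.mix j b' q ∈
      meets (X x) ∪ fnot (meets (X x)) := fun x b => hD j ⟨x, rfl⟩ b
  obtain ⟨i, hi⟩ := hF (fun x => {b : Bj Q j | glue Q j b q ∈ meets (X x)})
  have hdown : ∀ x, Down {b : Bj Q j | glue Q j b q ∈ meets (X x)} := by
    intro x b hb b' hb'
    exact down_meets _ _ hb _ (glue_mono Q j hb' le_rfl)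
  refine ⟨q, hq, i, ?_, ?_⟩
  · intro y
    refine mem_fimp.2 fun s hs hsm => ?_
    have h4 : res Q j s ∈ meets (F i y) := (meets_lift Q j (F i y) s).1 hsm
    obtain ⟨b, hb, hbm⟩ := mem_fimp.1 ((hi (res Q j s)).1 y) (res Q j s) le_rfl h4
    obtain ⟨b', hb', hbm'⟩ := exists_of_meets (hdown y) hbm
    refine ⟨glue Q j b' s, glue_le Q j (hb'.trans hb), ?_⟩
    exact down_meets _ _ hbm' _ (glue_mono Q j le_rfl hs)
  · intro y
    refine mem_fimp.2 fun s hs hsm => ?_
    obtain ⟨b', hb', hmem⟩ := hD' y s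
    rw [mix_eq] at hmem
    have h5 : glue Q j (res Q j b') q ∈ meets (X y) := by
      rcases hmem with h | h
      · exact h
      · exfalso
        refine h (glue Q j (res Q j b') s) (glue_mono Q j le_rfl hs) ?_
        exact down_meets _ _ hsm _ (glue_le Q j (res_mono Q j hb'))
    obtain ⟨c, hc, hcm⟩ := mem_fimp.1 ((hi (res Q j b')).2 y) (res Q j b') le_rfl
      (meets_of_mem h5)
    refine ⟨glue Q j c s, glue_le Q j (hc.trans (res_mono Q j hb')), ?_⟩
    rw [meets_lift, res_glue]
    exact hcm

theorem tCOL : S_COL := by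
  classical
  intro Q j p ν hν
  obtain ⟨e⟩ : Nonempty (ν.out ↪ (Q.ka j).ord.ToType) := by
    rw [← Cardinal.le_def, Cardinal.mk_out, mk_ord_toType]
    exact hν.le
  obtain ⟨a, ha⟩ := bdd_ord (Q.reg j) (Set.range e) (by
    refine Cardinal.mk_range_le.trans_lt ?_
    rw [Cardinal.mk_out]
    exact hν)
  have ha' : ∀ y, e y < a := fun y => ha _ ⟨y, rfl⟩
  have hdown : ∀ x y, Down {q : Q.Cd | (q j).f a x = some (e y)} :=
    fun x y q hq q' hq' => hq' j a x _ hq
  refine mem_fex_of_mem (fun x y => {q : Q.Cd | (q j).f a x = some (e y)}) ?_ ⟨?_, ?_⟩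
  · exact down_fand (down_fall fun _ => down_fall fun _ => down_fall fun _ => down_fimp _ _)
      (down_IsOnto _)
  · intro x y y'
    refine mem_fimp.2 fun q _ h => ?_
    obtain ⟨k1, k2⟩ := h
    obtain ⟨r, hr, hr1⟩ := exists_of_meets (hdown x y) k1
    obtain ⟨r', hr', hr2⟩ := exists_of_meets (hdown x y') (down_meets _ _ k2 _ hr)
    have hr3 : r' ∈ {q : Q.Cd | (q j).f a x = some (e y)} := hdown x y _ hr1 _ hr'
    refine ⟨q, le_rfl, ?_⟩
    have h4 : some (e y) = some (e y') := (show (r' j).f a x = some (e y) from hr3).symm.trans hr2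
    exact e.injective (Option.some.inj h4)
  · intro y
    refine mem_fex.2 fun q _ => ?_
    obtain ⟨x, hx⟩ : ∃ x, (q j).f a x = none := by
      by_contra hcon
      push Not at hcon
      have h1 : #((Q.mu j).ord.ToType) ≤
          #{z : (Q.ka j).ord.ToType × (Q.mu j).ord.ToType // (q j).f z.1 z.2 ≠ none} :=
        Cardinal.mk_le_of_injective (f := fun x => ⟨(a, x), hcon x⟩) (by
          intro x x' h
          have h2 := congrArg Subtype.val h
          exact congrArg Prod.snd h2)
      rw [mk_ord_toType] at h1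
      exact absurd (h1.trans_lt (q j).small) (lt_irrefl _)
    let c : Co (Q.mu j) (Q.ka j) :=
      { f := fun a' x' => if a' = a ∧ x' = x then some (e y) else (q j).f a' x'
        small := by
          have h1 : {z : (Q.ka j).ord.ToType × (Q.mu j).ord.ToType |
              (if z.1 = a ∧ z.2 = x then some (e y) else (q j).f z.1 z.2) ≠ none} ⊆
              insert (a, x) {z | (q j).f z.1 z.2 ≠ none} := by
            intro z hz
            by_cases h : z.1 = a ∧ z.2 = x
            · exact Or.inl (Prod.ext h.1 h.2)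
            · refine Or.inr ?_
              have hz' : (if z.1 = a ∧ z.2 = x then some (e y) else (q j).f z.1 z.2) ≠ none := hz
              rw [if_neg h] at hz'
              exact hz'
          refine lt_of_le_of_lt (Cardinal.mk_le_mk_of_subset h1) ?_
          refine Cardinal.mk_insert_le.trans_lt ?_
          exact Cardinal.add_lt_of_lt (Q.aleph0_le_mu j) (q j).small
            (Cardinal.one_lt_aleph0.trans_le (Q.aleph0_le_mu j))
        reg := by
          intro a' x' b h
          by_cases h' : a' = a ∧ x' = x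
          · rw [if_pos h'] at h
            rw [← Option.some.inj h, h'.1]
            exact ha' y
          · rw [if_neg h'] at h
            exact (q j).reg a' x' b h }
    have hc : c ≤ q j := by
      intro a' x' b h
      show (if a' = a ∧ x' = x then some (e y) else (q j).f a' x') = some b
      rw [if_neg]
      · exact h
      · rintro ⟨rfl, rfl⟩
        rw [hx] at h
        exact absurd h (by simp)
    refine ⟨Function.update q j c, ?_, x, ?_⟩
    · intro i
      by_cases hi : i = j
      · subst hi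
        rw [Function.update_self]
        exact hc
      · rw [Function.update_of_ne hi]
    · apply meets_of_mem
      show ((Function.update q j c) j).f a x = some (e y)
      rw [Function.update_self]
      exact if_pos ⟨rfl, rfl⟩

end Pool.Agent.W933.LC
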